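import Pool.Agent.N437.SQ.Stm

/-! SQ/F6A: the deterministic part, edge set version (helper555). -/

set_option autoImplicit false

namespace Pool.Agent.N555.SQ

open Finset Pool.Agent.N437.SQ

theorem M_mul_D {q L i : ℕ} (h : i ≤ L) : M q L i * D q i = q ^ 3 ^ L := by
  unfold M D
  rw [← pow_add, Nat.sub_add_cancel (Nat.pow_le_pow_right (by norm_num) h)]

theorem two_M_succ {q L i : ℕ} (hq : 2 ≤ q) (h : i + 1 ≤ L) : 2 * M q L (i + 1) ≤ M q L i := by
  unfold M
  have h0 : 3 ^ (i + 1) ≤ 3 ^ L := Nat.pow_le_pow_right (by norm_num) h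
  have h2 : 1 ≤ 3 ^ i := Nat.one_le_pow _ _ (by norm_num)
  have h3 : 3 ^ (i + 1) = 3 * 3 ^ i := by ring
  have h1 : 3 ^ L - 3 ^ i = (3 ^ (i + 1) - 3 ^ i) + (3 ^ L - 3 ^ (i + 1)) := by omega
  rw [h1, pow_add q]
  apply Nat.mul_le_mul_right
  calc 2 ≤ q ^ 1 := by simpa using hq
    _ ≤ q ^ (3 ^ (i + 1) - 3 ^ i) := Nat.pow_le_pow_right (by omega) (by omega)

theorem sum_M {q L : ℕ} (hq : 2 ≤ q) (i0 t : ℕ) (h : i0 + t ≤ L) :
    ∑ j ∈ range t, M q L (i0 + j) + 2 * M q L (i0 + t) ≤ 2 * M q L i0 := by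
  induction t with
  | zero => simp
  | succ t ih =>
    have h1 := ih (by omega)
    have h2 := two_M_succ (q := q) (L := L) (i := i0 + t) hq (by omega)
    rw [sum_range_succ, show i0 + (t + 1) = i0 + t + 1 by ring]
    omega

theorem sum_M_le {q L : ℕ} (hq : 2 ≤ q) (T : Finset (Fin L)) (i0 : Fin L) (hT : ∀ i ∈ T, i0 ≤ i) :
    ∑ i ∈ T, M q L i ≤ 2 * M q L i0 := by
  have h1 : ∑ i ∈ T, M q L i = ∑ j ∈ T.image (fun i : Fin L => (i : ℕ)), M q L j := by
    rw [sum_image]
    intro a _ b _ hab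
    exact Fin.ext hab
  have h2 : T.image (fun i : Fin L => (i : ℕ)) ⊆ Ico (i0 : ℕ) L := by
    intro j hj
    obtain ⟨i, hi, rfl⟩ := mem_image.1 hj
    exact mem_Ico.2 ⟨hT i hi, i.2⟩
  have h3 := sum_le_sum_of_subset (f := fun j => M q L j) h2
  rw [sum_Ico_eq_sum_range] at h3
  have h4 := sum_M (q := q) (L := L) hq i0 (L - i0) (by have := i0.2; omega)
  rw [h1]
  omega

/-- the vertex of the small class of an edge -/
def bv {q L : ℕ} (φ : Fin (q ^ (3 ^ L)) → Psi q L) (e : Fin (q ^ (3 ^ L)) × Fin L) : Lay q L :=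
  ⟨e.2, φ e.1 e.2⟩

theorem bv_eq {q L : ℕ} (φ : Fin (q ^ (3 ^ L)) → Psi q L) (f e : Fin (q ^ (3 ^ L)) × Fin L) :
    bv φ f = bv φ e ↔ f.2 = e.2 ∧ φ f.1 e.2 = φ e.1 e.2 := by
  obtain ⟨a, i⟩ := f
  obtain ⟨b, j⟩ := e
  simp only [bv, Sigma.mk.injEq]
  constructor
  · rintro ⟨rfl, h⟩
    exact ⟨rfl, eq_of_heq h⟩
  · rintro ⟨rfl, h⟩
    exact ⟨rfl, heq_of_eq h⟩

/-- the double counting of the edges -/
theorem card_B_le {q L C k : ℕ} (φ : Fin (q ^ (3 ^ L)) → Psi q L) (hk : 1 ≤ k)
    (S : Finset (Fin (q ^ (3 ^ L)) × Fin L))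
    (hA : ∀ e ∈ S, (S.filter fun f => f.1 = e.1).card < C * k)
    (hB : ∀ e ∈ S, k < (S.filter fun f => f.2 = e.2 ∧ φ f.1 e.2 = φ e.1 e.2).card) :
    (S.image (bv φ)).card ≤ C * (S.image Prod.fst).card := by
  have h1 : S.card ≤ (C * k) * (S.image Prod.fst).card := by
    apply card_le_mul_card_image
    intro a ha
    obtain ⟨e, he, rfl⟩ := mem_image.1 ha
    exact (hA e he).le
  have h2 : k * (S.image (bv φ)).card ≤ S.card := by
    apply mul_card_image_le_card
    intro b hb
    obtain ⟨e, he, rfl⟩ := mem_image.1 hb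
    simp only [bv_eq]
    exact (hB e he).le
  have h3 : k * (S.image (bv φ)).card ≤ k * (C * (S.image Prod.fst).card) := by
    calc _ ≤ _ := h2
      _ ≤ _ := h1
      _ = _ := by ring
  exact Nat.le_of_mul_le_mul_left h3 (by omega)

/-- the number of the edges to one layer -/
theorem card_layer_le {q L C k : ℕ} (φ : Fin (q ^ (3 ^ L)) → Psi q L)
    (S : Finset (Fin (q ^ (3 ^ L)) × Fin L))
    (hB : ∀ e ∈ S, (S.filter fun f => f.2 = e.2 ∧ φ f.1 e.2 = φ e.1 e.2).card < C * k)
    (i : Fin L) : (S.filter fun f => f.2 = i).card ≤ C * k * M q L i := by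
  have h1 : (S.filter fun f => f.2 = i).card ≤ C * k * (univ : Finset (Fin (M q L i))).card := by
    apply card_le_mul_card_image_of_maps_to (f := fun f => φ f.1 i) (fun _ _ => mem_univ _)
    intro b _
    rw [filter_filter]
    by_cases hne : (S.filter fun f => f.2 = i ∧ φ f.1 i = b).Nonempty
    · obtain ⟨e, he⟩ := hne
      obtain ⟨heS, rfl, rfl⟩ := mem_filter.1 he
      exact (hB e heS).le
    · rw [not_nonempty_iff_eq_empty.1 hne]
      simp
  simpa using h1

/-- the high layers have few edges -/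
theorem card_high_lt {q L C k m : ℕ} (φ : Fin (q ^ (3 ^ L)) → Psi q L) (hq : 2 ≤ q) (hm : 1 ≤ m)
    (S : Finset (Fin (q ^ (3 ^ L)) × Fin L))
    (hB : ∀ e ∈ S, (S.filter fun f => f.2 = e.2 ∧ φ f.1 e.2 = φ e.1 e.2).card < C * k)
    (high : Finset (Fin L)) (hh : ∀ i ∈ high, 4 * (C * k) * q ^ (3 ^ L) < D q i * m) :
    2 * (S.filter fun f => f.2 ∈ high).card < m := by
  have h1 : (S.filter fun f => f.2 ∈ high).card ≤ C * k * ∑ i ∈ high, M q L i := by
    have h0 : (S.filter fun f => f.2 ∈ high).card =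
        ∑ i ∈ high, ((S.filter fun f => f.2 ∈ high).filter fun f => f.2 = i).card :=
      card_eq_sum_card_fiberwise (fun x hx => mem_coe.2 (mem_filter.1 (mem_coe.1 hx)).2)
    rw [h0, mul_sum]
    apply sum_le_sum
    intro i hi
    refine le_trans (card_le_card ?_) (card_layer_le φ S hB i)
    intro x hx
    rw [mem_filter, mem_filter] at hx
    exact mem_filter.2 ⟨hx.1.1, hx.2⟩
  by_cases hne : high.Nonempty
  · set i0 := high.min' hne with hi0
    have h2 := sum_M_le (q := q) (L := L) hq high i0 (fun i hi => high.min'_le i hi)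
    have h3 := hh i0 (high.min'_mem hne)
    have h4 : M q L i0 * D q i0 = q ^ 3 ^ L := M_mul_D i0.2.le
    have hD : 0 < D q i0 := pow_pos (by omega) _
    have h5 : 4 * (C * k) * M q L i0 < m := by
      rw [← h4] at h3
      have h6 : D q i0 * (4 * (C * k) * M q L i0) < D q i0 * m := by
        calc _ = 4 * (C * k) * (M q L i0 * D q i0) := by ring
          _ < _ := h3
      exact Nat.lt_of_mul_lt_mul_left h6
    calc 2 * (S.filter fun f => f.2 ∈ high).card ≤ 2 * (C * k * ∑ i ∈ high, M q L i) := by omega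
      _ ≤ 2 * (C * k * (2 * M q L i0)) := by gcongr
      _ = 4 * (C * k) * M q L i0 := by ring
      _ < m := h5
  · rw [not_nonempty_iff_eq_empty.1 hne] at h1 ⊢
    simp at h1 ⊢
    omega

theorem t_F6A : S_F6A := by
  intro q L C k φ hC hk hq hgood S hS hdA hdB
  have hq2 : 2 ≤ q := by omega
  set A' := S.image Prod.fst with hA'
  set B' := S.image (bv φ) with hB'
  set m := A'.card with hm
  have hm1 : 1 ≤ m := card_pos.2 (hS.image _)
  have hBm : B'.card ≤ C * m := card_B_le φ hk S (fun e he => (hdA e he).2)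
    (fun e he => (hdB e he).1)
  set high : Finset (Fin L) := univ.filter fun i => 4 * (C * k) * q ^ (3 ^ L) < D q i * m
    with hhigh
  have hlt := card_high_lt (m := m) φ hq2 hm1 S (fun e he => (hdB e he).2) high
    (fun i hi => (mem_filter.1 hi).2)
  set A2 := A'.filter fun a => ∀ i, (a, i) ∈ S → i ∉ high with hA2
  have hsd : (A' \ A2).card ≤ (S.filter fun f => f.2 ∈ high).card := by
    have hsub : A' \ A2 ⊆ (S.filter fun f => f.2 ∈ high).image Prod.fst := by
      intro a ha
      obtain ⟨ha1, ha2⟩ := mem_sdiff.1 ha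
      rw [hA2, mem_filter] at ha2
      push Not at ha2
      obtain ⟨i, hi, hih⟩ := ha2 ha1
      exact mem_image.2 ⟨(a, i), mem_filter.2 ⟨hi, hih⟩, rfl⟩
    exact (card_le_card hsub).trans card_image_le
  have hAsub : A2 ⊆ A' := filter_subset _ _
  have hcard : A2.card + (A' \ A2).card = m := by
    rw [card_sdiff_of_subset hAsub]
    have := card_le_card hAsub
    omega
  have hs2 : m < 2 * A2.card := by omega
  have hsm : A2.card ≤ m := card_le_card hAsub
  have hne : A2.Nonempty := card_pos.1 (by omega)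
  obtain ⟨a, haA, hhit⟩ := hgood A2 B' hne (by
    calc B'.card ≤ C * m := hBm
      _ ≤ C * (2 * A2.card) := by gcongr
      _ = 2 * C * A2.card := by ring)
  obtain ⟨haA', hanh⟩ := mem_filter.1 haA
  obtain ⟨e, heS, hea⟩ := mem_image.1 haA'
  -- the layers of the edges at `a`
  set T := (S.filter fun f => f.1 = a).image Prod.snd with hT
  have hTcard : k < T.card := by
    rw [hT, card_image_of_injOn]
    · have := (hdA e heS).1
      rwa [hea] at this
    · intro x hx y hy hxy
      have hx1 := (mem_filter.1 (mem_coe.1 hx)).2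
      have hy1 := (mem_filter.1 (mem_coe.1 hy)).2
      exact Prod.ext (hx1.trans hy1.symm) hxy
  have hTS : ∀ i ∈ T, (a, i) ∈ S := by
    intro i hi
    obtain ⟨f, hf, rfl⟩ := mem_image.1 hi
    obtain ⟨hf1, hf2⟩ := mem_filter.1 hf
    rw [← hf2]
    exact hf1
  have hsubhits : (T.filter fun i => i ∈ low q L A2.card) ⊆
      (low q L A2.card).filter fun i => (⟨i, φ a i⟩ : Lay q L) ∈ B' := by
    intro i hi
    obtain ⟨hiT, hil⟩ := mem_filter.1 hi
    exact mem_filter.2 ⟨hil, mem_image.2 ⟨(a, i), hTS i hiT, rfl⟩⟩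
  have hlowc : (T.filter fun i => i ∈ low q L A2.card).card < k :=
    lt_of_le_of_lt (card_le_card hsubhits) hhit
  have hnl : (T.filter fun i => i ∉ low q L A2.card).card ≤ 1 := by
    rw [card_le_one]
    have key : ∀ i ∈ T, ∀ j ∈ T, i ∉ low q L A2.card → i < j → False := by
      intro i hi j hj hil hij
      have hjh := hanh j (hTS j hj)
      apply hjh
      refine mem_filter.2 ⟨mem_univ _, ?_⟩
      have hil' : q ^ (3 ^ L) < D q i ^ 2 * A2.card := by
        by_contra hcon
        exact hil (mem_filter.2 ⟨mem_univ _, not_lt.1 hcon⟩)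
      have hDj : D q i ^ 2 * q ≤ D q j := by
        have h1 : q ≤ D q i := by
          unfold D
          calc q = q ^ 1 := (pow_one q).symm
            _ ≤ q ^ (3 ^ (i : ℕ)) := Nat.pow_le_pow_right (by omega) (Nat.one_le_pow _ _ (by norm_num))
        calc D q i ^ 2 * q ≤ D q i ^ 2 * D q i := by gcongr
          _ = q ^ (3 ^ ((i : ℕ) + 1)) := by unfold D; rw [← pow_mul, ← pow_add]; ring_nf
          _ ≤ D q j := by
            unfold D
            exact Nat.pow_le_pow_right (by omega)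
              (Nat.pow_le_pow_right (by norm_num) (Nat.succ_le_of_lt hij))
      calc 4 * (C * k) * q ^ (3 ^ L) ≤ q * q ^ (3 ^ L) := by
            apply Nat.mul_le_mul_right
            calc 4 * (C * k) = 4 * C * k := by ring
              _ ≤ q := by omega
        _ < q * (D q i ^ 2 * A2.card) := by
            apply Nat.mul_lt_mul_of_pos_left hil' (by omega)
        _ = (D q i ^ 2 * q) * A2.card := by ring
        _ ≤ D q j * m := Nat.mul_le_mul hDj hsm
    intro i hi j hj
    obtain ⟨hiT, hil⟩ := mem_filter.1 hi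
    obtain ⟨hjT, hjl⟩ := mem_filter.1 hj
    by_contra hne
    rcases lt_or_gt_of_ne hne with h | h
    · exact key i hiT j hjT hil h
    · exact key j hjT i hiT hjl h
  have hsplit := card_filter_add_card_filter_not (s := T) (fun i => i ∈ low q L A2.card)
  omega

end Pool.Agent.N555.SQ
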